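import Mathlib
import Pool.Agent.X104.Gap.GpPoly
import Pool.Agent.X104.Gap.Ex

/-!
# Power mean of order -2: a gap which is uniform in the degree

For `a` in a compact part of `(0, 1)` and large degree the power mean `M₋₂` of the distances from
`a` to the critical points is bounded away from `1`, uniformly in the other zeros. The second part
gives the extremal candidates which show that the gap cannot be larger than `4 / (1 + a) ^ 2 - 1`.
-/

set_option autoImplicit false

open Polynomial

namespace Pool.Agent.Results.MP_f0bc87_an.UniformGap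

/-- The polynomial `(X - a) ∏ (X - z j)`. -/
noncomputable def poly {m : ℕ} (a : ℝ) (z : Fin m → ℂ) : ℂ[X] :=
  (X - C (a : ℂ)) * ∏ j, (X - C (z j))

/-- The sum of `|w - a|⁻²` over the critical points `w`, with multiplicity. -/
noncomputable def recipSum {m : ℕ} (a : ℝ) (z : Fin m → ℂ) : ℝ :=
  (((derivative (poly a z)).roots).map (fun w : ℂ => (‖w - (a : ℂ)‖ ^ 2)⁻¹)).sum

/-- **The uniform gap.** For every `ε > 0` there are `c > 0` and `m₀` such that for all
`m ≥ m₀` further zeros in the closed unit disc and all `a` in `[ε, 1 - ε]` either `a` is a critical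
point or the sum of `|w - a|⁻²` is larger than `(1 + c) m`. For every `a` in `[0, 1]` and every `m`
there are zeros for which the sum is `4 m / (1 + a) ^ 2`. -/
theorem result :
    (∀ ε : ℝ, 0 < ε → ∃ c : ℝ, 0 < c ∧ ∃ m₀ : ℕ, ∀ m : ℕ, m₀ ≤ m → ∀ a : ℝ, ε ≤ a → a ≤ 1 - ε →
      ∀ z : Fin m → ℂ, (∀ j, ‖z j‖ ≤ 1) →
        (a : ℂ) ∈ (derivative (poly a z)).roots ∨ (1 + c) * m < recipSum a z) ∧
    ∀ a : ℝ, 0 ≤ a → a ≤ 1 → ∀ m : ℕ, ∃ z : Fin m → ℂ, (∀ j, ‖z j‖ ≤ 1) ∧
      (a : ℂ) ∉ (derivative (poly a z)).roots ∧ recipSum a z = 4 / (1 + a) ^ 2 * m := by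
  constructor
  · intro ε hε
    obtain ⟨τ, hτ, -, m₀, h⟩ := Pool.Agent.X104.Gap.gap_poly hε
    exact ⟨τ, hτ, m₀, h⟩
  · intro a ha0 ha1 m
    have hroots : (derivative (poly a (Pool.Agent.X104.Gap.exz a m))).roots =
        Multiset.replicate m ((-(1 - a) / 2 : ℝ) : ℂ) := Pool.Agent.X104.Gap.ex_roots a m
    refine ⟨Pool.Agent.X104.Gap.exz a m, Pool.Agent.X104.Gap.exz_norm ha0 ha1 m, ?_, ?_⟩
    · rw [hroots]
      intro h
      have h1 := Multiset.eq_of_mem_replicate h
      have h2 : a = -(1 - a) / 2 := by exact_mod_cast h1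
      linarith
    · unfold recipSum
      rw [hroots, Multiset.map_replicate, Multiset.sum_replicate, nsmul_eq_mul]
      have h1 : ‖((-(1 - a) / 2 : ℝ) : ℂ) - (a : ℂ)‖ = (1 + a) / 2 := by
        rw [← Complex.ofReal_sub, Complex.norm_real, Real.norm_eq_abs,
          abs_of_nonpos (by linarith)]
        ring
      rw [h1]
      field_simp
      norm_num

end Pool.Agent.Results.MP_f0bc87_an.UniformGap
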